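import Pool.Agent.Q178.Ext.Final

set_option autoImplicit false

/-!
Euclidean and Hausdorff covering numbers of everywhere non-Hausdorff manifolds.
-/

universe u

namespace Pool.Agent.Results.MP_434b1a_gt.CoveringNumbers

open Q178.HNH Q178.Ext
open scoped Cardinal

/-- (1) There is an ENH-manifold `M` with `E(M) > OH(M)` if and only if `cov(B) < 𝔠`.
(2) If `cov(B) = 𝔠`, then `E(M) = OH(M)` for every ENH-manifold, in any universe.
(3) If `cov(B) = 𝔠`, then `E(M) = OH(M)` for every HNH-manifold, in any universe.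
(4) There is an HNH-manifold with `E(M) > OH(M)` if and only if there is an HNH-manifold with
`OH(M) < 𝔠`. -/
theorem result :
    ((∃ (n : ℕ) (M : Type) (_ : TopologicalSpace M),
      IsMfd n M ∧ IsENH M ∧ hausNum M < euclNum n M) ↔ covB < 𝔠) ∧
    (covB = 𝔠 → ∀ (n : ℕ) (M : Type u) [TopologicalSpace M], IsMfd n M → IsENH M →
      euclNum n M = hausNum M) ∧
    (covB = 𝔠 → ∀ (n : ℕ) (M : Type u) [TopologicalSpace M], IsHNH n M →
      euclNum n M = hausNum M) ∧
    ((∃ (n : ℕ) (M : Type) (_ : TopologicalSpace M), IsHNH n M ∧ hausNum M < euclNum n M) ↔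
      ∃ (n : ℕ) (M : Type) (_ : TopologicalSpace M), IsHNH n M ∧ hausNum M < 𝔠) :=
  final

end Pool.Agent.Results.MP_434b1a_gt.CoveringNumbers
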